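import Mathlib

/-!
# MP_5ee2d0_ag: the steps of a program in dimension `n`

`X` is a smooth projective variety of dimension `n`, `K_X ~ 0`, `L` a nef divisor with `L^3` numerically
trivial, `x` the b-divisor of the Lelong numbers of a current in the class of `L`, with finitely many
components on `X`, such that `L - t x` is b-nef for `0 ≤ t ≤ t*`, and `a_E` are the discrepancies over `X`.
Let `lam` be smaller than the log canonical threshold of `x`, and let `Y → X` be `ℚ`-factorial, its
exceptional divisors the divisors `E` exceptional over `X` with `a_E ≤ lam x_E`. Let `F_j` be the prime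
divisors of `Y` with `x_j > 0`. The steps of the program with scaling of an ample divisor for
`D = L - t (∑ x_j F_j)`, `t` small, are small and `L`-trivial, all the models `Y_i` are terminal (the
divisors `E` exceptional over `Y` satisfy `a_E - lam x_E > 0`), so they are smooth in codimension two.

Let `E` be a prime divisor exceptional over `Y` with `a_E - lam x_E ≤ 1 - del`, where `del > 0` is the
minimum of `lam x_j - a_j` over the `F_j`; we say that `E` is low. The blow up of a locus of codimension
two which is contained in one of the `F_j` is of this kind.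

We show that after finitely many steps nothing of codimension two is created or destroyed. Then the
asymptotic multiplicities of `D` along the divisors with a centre of codimension two are zero.
-/

namespace Pool.Agent.H57.XN

open Filter Topology

/-- An infinite sequence of steps `Y_0 ⇢ Y_1 ⇢ ...` of the program for `D`, with scaling. -/
structure Steps where
  /-- the prime divisors `F_j` of `Y` with `x_j > 0` -/
  J : Type
  [fin : Fintype J]
  x : J → ℝ
  x_pos : ∀ j, 0 < x j
  /-- the prime divisors `E` exceptional over `Y` -/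
  P : Type
  /-- `a_E - lam x_E ≤ 1 - del` -/
  Low : P → Prop
  /-- the coefficient `x_E`; it is bounded for the low divisors, since `x_E` is at most `(1 + a_E) / c`, `c`
  the log canonical threshold of `x`, which is larger than `lam` -/
  coef : P → ℝ
  C : ℝ
  coef_le : ∀ E, Low E → coef E ≤ C
  /-- the codimension of the centre of `E` on `Y_i` -/
  cod : ℕ → P → ℕ
  /-- the centre of `E` on `Y_i` lies in the locus of step `i`; equivalently, its centre on `Y_(i+1)` lies
  in the locus created by the step -/
  Inv : ℕ → P → Prop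
  /-- otherwise the step is an isomorphism at the generic point of the centre -/
  cod_succ : ∀ i E, ¬ Inv i E → cod (i + 1) E = cod i E
  /-- the multiplicity along `E` of the pull back of `F_j` on `Y_i` -/
  ord : ℕ → P → J → ℝ
  /-- a terminal variety is smooth in codimension two -/
  int : ∀ i E, cod i E = 2 → ∀ j, ∃ z : ℕ, ord i E j = z
  /-- negativity lemma: the pull back of `L - t x` from `Y_i` is at least `L - t x`, since this is b-nef -/
  le : ∀ i E, ∑ j, x j * ord i E j ≤ coef E
  /-- negativity lemma -/
  mono : ∀ i E, ∑ j, x j * ord i E j ≤ ∑ j, x j * ord (i + 1) E j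
  mono_lt : ∀ i E, Inv i E → ∑ j, x j * ord i E j < ∑ j, x j * ord (i + 1) E j
  /-- Let `W` be a log resolution of `Y_0` and of an approximation of `x` (Demailly). The discrepancies of
  the divisors which are exceptional over `W` show: only finitely many low `E` are not of the following
  form: `E` is the weighted blow up of a locus `S` of codimension two in `F_j`, with weights `n` for `F_j`
  and `1` for `S`, where `F_j` is the only component which contains `S`. -/
  off : {E | Low E ∧ cod 0 E ≠ 2}.Finite
  /-- A class `D + e H` contains an effective divisor `G` which does not contain `F_j` and the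
  multiplicities of which are, up to a small number, at least `t (coef E - ∑ x_j ord_E(F_j))`. The
  restriction of `G` to `F_j` has at least this multiplicity along `S`. So for every `j` and every weight
  `n` the sum is at most the degree of `D` on `F_j`, divided by `t`. The weights are bounded. -/
  M : ℝ
  bound : ∀ S : Finset P, (∀ E ∈ S, Low E ∧ cod 0 E = 2) →
    ∑ E ∈ S, (coef E - ∑ j, x j * ord 0 E j) ≤ M
  /-- the dimension of the span of the classes of the subvarieties of codimension two in the rational
  Borel-Moore homology `H_(2n-4)(Y_i)` -/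
  rk : ℕ → ℕ
  /-- If the locus created by step `i` contains an `S` of codimension two then `S` is contained in some
  `F_j`, since `L` has degree zero and `D` positive degree on the created curves; the blow up `E` of `S`
  is low. So if no low `E` is created in codimension two then the created locus has codimension at least
  three, and the group on `Y_(i+1)` is the one on the complement of this locus; the map from the group
  on `Y_i` is onto. -/
  rk_le : ∀ i, (∀ E, Low E → Inv i E → cod (i + 1) E ≠ 2) → rk (i + 1) ≤ rk i
  /-- If the locus of step `i` contains an `S` of codimension two then the class of `S` goes to zero; it is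
  not zero, since `Y_i` is projective. -/
  rk_lt : ∀ i, (∀ E, Low E → Inv i E → cod (i + 1) E ≠ 2) → (∃ E, Inv i E ∧ cod i E = 2) →
    rk (i + 1) < rk i
  /-- the asymptotic multiplicity along `E` of `D + s A` on `Y_i`, `s > 0`, where `A` is the transform of the
  ample divisor on `Y_0` -/
  sig : ℕ → P → ℝ → ℝ
  /-- the maps are small, so the sections of the multiples of `D + s A` on `Y_i` and on `Y_(i+1)` are the same,
  and so are the local equations at the generic point of the centre of `E`, if the step is an isomorphism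
  there -/
  sig_succ : ∀ i E s, 0 < s → ¬ Inv i E → sig (i + 1) E s = sig i E s
  /-- the scaling: `D + e_i A` is nef on `Y_i` -/
  e : ℕ → ℝ
  e_pos : ∀ i, 0 < e i
  /-- Birkar, Cascini, Hacon and McKernan 2010: for `e > 0` the program for `D + e A` with scaling of `A`
  stops, so `e_i → 0` -/
  e_lim : Tendsto e atTop (𝓝 0)
  sig_nef : ∀ i E, sig i E (e i) = 0

attribute [instance] Steps.fin

namespace Steps

variable (S : Steps)

/-- the multiplicity of `∑ x_j F_j` on `Y_i` -/
noncomputable def w (i : ℕ) (E : S.P) : ℝ := ∑ j, S.x j * S.ord i E j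

theorem w_mono (E : S.P) : Monotone fun i => S.w i E :=
  monotone_nat_of_le_succ fun i => S.mono i E

/-- the possible values -/
def vals : Set ℝ := {r | r ≤ S.C ∧ ∃ z : S.J → ℕ, r = ∑ j, S.x j * z j}

theorem vals_finite : S.vals.Finite := by
  classical
  have h1 : ∀ j, ∃ n : ℕ, S.C / S.x j < n := fun j => exists_nat_gt _
  choose n hn using h1
  have h2 : (Set.pi Set.univ fun j => Set.Iic (n j) : Set (S.J → ℕ)).Finite :=
    Set.Finite.pi fun j => Set.finite_Iic _
  refine (h2.image fun z => ∑ j, S.x j * (z j : ℝ)).subset ?_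
  rintro r ⟨hr, z, rfl⟩
  refine ⟨z, fun j _ => ?_, rfl⟩
  have h3 : S.x j * z j ≤ S.C := le_trans
    (Finset.single_le_sum (f := fun j => S.x j * (z j : ℝ))
      (fun i _ => mul_nonneg (S.x_pos i).le (Nat.cast_nonneg _)) (Finset.mem_univ j)) hr
  have h4 : (z j : ℝ) ≤ S.C / S.x j := by
    rw [le_div_iff₀ (S.x_pos j)]
    linarith
  have h5 : (z j : ℝ) < n j := lt_of_le_of_lt h4 (hn j)
  exact_mod_cast h5.le

theorem mem_vals {i : ℕ} {E : S.P} (hl : S.Low E) (h : S.cod i E = 2) : S.w i E ∈ S.vals := by
  refine ⟨(S.le i E).trans (S.coef_le E hl), ?_⟩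
  choose z hz using S.int i E h
  exact ⟨z, Finset.sum_congr rfl fun j _ => by rw [hz]⟩

/-- the smallest positive difference of two values -/
theorem exists_gap : ∃ e : ℝ, 0 < e ∧ ∀ r ∈ S.vals, ∀ r' ∈ S.vals, r < r' → e ≤ r' - r := by
  classical
  have h1 : ((S.vals ×ˢ S.vals) ∩ {p | p.1 < p.2}).Finite :=
    (S.vals_finite.prod S.vals_finite).inter_of_left _
  by_cases h2 : ((S.vals ×ˢ S.vals) ∩ {p | p.1 < p.2}).Nonempty
  · obtain ⟨p, hp, hmin⟩ := h1.exists_minimalFor (fun p => p.2 - p.1) _ h2
    refine ⟨p.2 - p.1, sub_pos.2 hp.2, fun r hr r' hr' h => ?_⟩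
    by_contra hlt
    rw [not_le] at hlt
    have := hmin (j := (r, r')) ⟨⟨hr, hr'⟩, h⟩ hlt.le
    simp only at this
    linarith
  · refine ⟨1, one_pos, fun r hr r' hr' h => ?_⟩
    exact absurd ⟨(r, r'), ⟨hr, hr'⟩, h⟩ h2

/-- the low divisors the centre of which is created in codimension two by some step -/
def created : Set S.P := {E | S.Low E ∧ ∃ i, S.Inv i E ∧ S.cod (i + 1) E = 2}

theorem created_finite : S.created.Finite := by
  classical
  obtain ⟨e, he, hgap⟩ := S.exists_gap
  have h1 : ∀ E ∈ S.created, S.cod 0 E = 2 → e ≤ S.coef E - S.w 0 E := by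
    rintro E ⟨hl, i, hi, hs⟩ h0
    have h2 : S.w 0 E ≤ S.w i E := S.w_mono E (Nat.zero_le i)
    have h3 : S.w i E < S.w (i + 1) E := S.mono_lt i E hi
    have h4 := hgap _ (S.mem_vals hl h0) _ (S.mem_vals hl hs) (lt_of_le_of_lt h2 h3)
    have h5 : S.w (i + 1) E ≤ S.coef E := S.le (i + 1) E
    linarith
  have h2 : (S.created ∩ {E | S.cod 0 E = 2}).Finite := by
    by_contra hinf
    obtain ⟨n, hn⟩ := exists_nat_gt (S.M / e)
    obtain ⟨T, hT, hcard⟩ := Set.Infinite.exists_subset_card_eq hinf n
    have h3 := S.bound T fun E hE => ⟨(hT hE).1.1, (hT hE).2⟩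
    have h4 : (T.card : ℝ) * e ≤ ∑ E ∈ T, (S.coef E - ∑ j, S.x j * S.ord 0 E j) := by
      rw [← nsmul_eq_mul]
      exact Finset.card_nsmul_le_sum _ _ _ fun E hE => h1 E (hT hE).1 (hT hE).2
    rw [hcard] at h4
    rw [div_lt_iff₀ he] at hn
    linarith
  refine (h2.union S.off).subset fun E hE => ?_
  by_cases h : S.cod 0 E = 2
  · exact Or.inl ⟨hE, h⟩
  · exact Or.inr ⟨hE.1, h⟩

theorem times_finite (E : S.P) (hl : S.Low E) :
    {i | S.Inv i E ∧ S.cod (i + 1) E = 2}.Finite := by
  refine Set.Finite.of_finite_image (f := fun i => S.w (i + 1) E)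
    (S.vals_finite.subset ?_) ?_
  · rintro r ⟨i, hi, rfl⟩
    exact S.mem_vals hl hi.2
  · have key : ∀ i i', S.Inv i' E → i < i' → S.w (i + 1) E < S.w (i' + 1) E := fun i i' h' hlt =>
      lt_of_le_of_lt (S.w_mono E (Nat.succ_le_of_lt hlt)) (S.mono_lt i' E h')
    intro i hi i' hi' h
    rcases lt_trichotomy i i' with hlt | heq | hlt
    · exact absurd h (key i i' hi'.1 hlt).ne
    · exact heq
    · exact absurd h (key i' i hi.1 hlt).ne'

/-- After finitely many steps nothing of codimension two is created. -/
theorem exists_created : ∃ N, ∀ i, N ≤ i → ∀ E, S.Low E → S.Inv i E → S.cod (i + 1) E ≠ 2 := by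
  classical
  have h1 : {i | ∃ E, S.Low E ∧ S.Inv i E ∧ S.cod (i + 1) E = 2}.Finite := by
    refine (S.created_finite.biUnion fun E (hE : E ∈ S.created) => S.times_finite E hE.1).subset ?_
    rintro i ⟨E, hE⟩
    exact Set.mem_biUnion (show E ∈ S.created from ⟨hE.1, i, hE.2⟩) hE.2
  obtain ⟨N, hN⟩ := h1.bddAbove
  exact ⟨N + 1, fun i hi E hl hE hs => absurd
    (hN (show i ∈ {i | ∃ E, S.Low E ∧ S.Inv i E ∧ S.cod (i + 1) E = 2} from ⟨E, hl, hE, hs⟩))
    (not_le.2 hi)⟩

/-- After finitely many steps nothing of codimension two is destroyed. -/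
theorem exists_destroyed : ∃ N, ∀ i, N ≤ i → ∀ E, S.Inv i E → S.cod i E ≠ 2 := by
  classical
  obtain ⟨N, hN⟩ := S.exists_created
  have hle : ∀ k, S.rk (N + (k + 1)) ≤ S.rk (N + k) := fun k =>
    S.rk_le (N + k) (hN (N + k) (Nat.le_add_right _ _))
  by_contra hcon
  push Not at hcon
  have hlt : ∀ i, N ≤ i → (∃ E, S.Inv i E ∧ S.cod i E = 2) → S.rk (i + 1) < S.rk i := fun i hi =>
    S.rk_lt i (hN i hi)
  have hanti : ∀ a b, S.rk (N + (a + b)) ≤ S.rk (N + a) := by
    intro a b
    induction b with
    | zero => simp
    | succ b ih => exact (hle (a + b)).trans ih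
  have key : ∀ k, ∃ j, S.rk (N + j) + k ≤ S.rk N := by
    intro k
    induction k with
    | zero => exact ⟨0, by simp⟩
    | succ k ih =>
      obtain ⟨j, hj⟩ := ih
      obtain ⟨i, hi, E, hE, hc⟩ := hcon (N + j)
      obtain ⟨b, rfl⟩ := Nat.exists_eq_add_of_le hi
      have h1 := hlt (N + j + b) (by omega) ⟨E, hE, hc⟩
      have h2 := hanti j b
      refine ⟨j + b + 1, ?_⟩
      have e1 : N + j + b = N + (j + b) := by ring
      have e2 : N + j + b + 1 = N + (j + b + 1) := by ring
      rw [e2, e1] at h1
      omega
  obtain ⟨j, hj⟩ := key (S.rk N + 1)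
  omega

/-- After finitely many steps the asymptotic multiplicities of `D + e_i A` along the divisors with a
centre of codimension two are zero. -/
theorem exists_sig : ∃ N, ∀ E, S.cod N E = 2 → ∀ K, N ≤ K → S.sig N E (S.e K) = 0 := by
  obtain ⟨N, hN⟩ := S.exists_destroyed
  refine ⟨N, fun E hE K hK => ?_⟩
  have key : ∀ k, S.cod (N + k) E = 2 ∧ ∀ s, 0 < s → S.sig (N + k) E s = S.sig N E s := by
    intro k
    induction k with
    | zero => exact ⟨hE, fun s _ => rfl⟩
    | succ k ih =>
      have hI : ¬ S.Inv (N + k) E := fun h => hN (N + k) (Nat.le_add_right _ _) E h ih.1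
      refine ⟨(S.cod_succ _ _ hI).trans ih.1, fun s hs => ?_⟩
      have := S.sig_succ (N + k) E s hs hI
      rw [← ih.2 s hs, ← this]
      rfl
  obtain ⟨k, rfl⟩ := Nat.exists_eq_add_of_le hK
  rw [← (key k).2 _ (S.e_pos _)]
  exact S.sig_nef _ _

end Steps

end Pool.Agent.H57.XN
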